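import Mathlib
import Pool.Agent.V1190.BS.Space
import Pool.Agent.V1190.BS.Cap
import Pool.Agent.V1190.BS.Defs
import Pool.Agent.V1190.BS.Upper
import Pool.Agent.V1190.BS.Lower

/-! The weak Banach-Saks quantity of order one of a unit ball can be equal to one. -/

open Filter Topology
open scoped ENNReal

namespace Pool.Agent.Results.MP_a61181_an.OrderOne

open Pool.Agent.V1190.BS

lemma val_tendsto : Tendsto (fun t : ℕ => (1 - 1 / (2:ℝ) ^ t) * (1 - t / (2:ℝ) ^ t)) atTop (𝓝 1) := by
  have h1 : Tendsto (fun t : ℕ => 1 / (2:ℝ) ^ t) atTop (𝓝 0) := by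
    have := tendsto_pow_atTop_nhds_zero_of_lt_one (r := (1:ℝ) / 2) (by norm_num) (by norm_num)
    refine this.congr (fun t => ?_)
    rw [div_pow, one_pow]
  have h2 : Tendsto (fun t : ℕ => (t:ℝ) / (2:ℝ) ^ t) atTop (𝓝 0) := by
    have := tendsto_pow_const_div_const_pow_of_one_lt 1 (r := (2:ℝ)) (by norm_num)
    refine this.congr (fun t => ?_)
    rw [pow_one]
  have h3 := (h1.const_sub 1).mul (h2.const_sub 1)
  simpa using h3

lemma lower_tcca : 1 ≤ tcca 1 ug := by
  unfold tcca
  refine le_iInf fun M => le_iInf fun hM => le_iInf fun hM0 => ?_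
  unfold cca ca
  refine le_iInf fun n => ?_
  set y : ℕ → X := fun i => comb (repAvg 1 M i) ug with hy
  have hlim : Tendsto (fun t : ℕ => ENNReal.ofReal ((1 - 1 / (2:ℝ) ^ t) * (1 - t / (2:ℝ) ^ t)))
      atTop (𝓝 1) := by
    have := ENNReal.tendsto_ofReal val_tendsto
    rwa [ENNReal.ofReal_one] at this
  refine le_of_tendsto hlim ?_
  filter_upwards [eventually_ge_atTop (n + 1)] with t ht
  have hk : n ≤ 2 ^ t - 1 := by
    have : t < 2 ^ t := Nat.lt_two_pow_self
    omega
  have hl : n ≤ 2 ^ (2 * t) - 1 := by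
    have : 2 * t < 2 ^ (2 * t) := Nat.lt_two_pow_self
    omega
  have h1 := lower M hM hM0 t
  have h2 : ENNReal.ofReal ((1 - 1 / (2:ℝ) ^ t) * (1 - t / (2:ℝ) ^ t)) ≤
      edist (ces y (2 ^ t - 1)) (ces y (2 ^ (2 * t) - 1)) := by
    rw [edist_dist, dist_eq_norm]
    exact ENNReal.ofReal_le_ofReal h1
  refine h2.trans ?_
  exact le_iSup_of_le (2 ^ t - 1) (le_iSup_of_le (2 ^ (2 * t) - 1)
    (le_iSup_of_le hk (le_iSup_of_le hl le_rfl)))

lemma wbs_one : wbs 1 (Metric.closedBall (0:X) 1) = 1 := by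
  apply le_antisymm
  · unfold wbs
    refine iSup_le fun x => iSup_le fun hx => iSup_le fun hw => ?_
    have hx' : ∀ n, ‖x n‖ ≤ 1 := fun n => by
      have := hx n
      rwa [Metric.mem_closedBall, dist_zero_right] at this
    have hlim : Tendsto (fun ε : ℝ => ENNReal.ofReal (1 + 9 * ε)) (𝓝[>] 0) (𝓝 1) := by
      have h1 : Tendsto (fun ε : ℝ => 1 + 9 * ε) (𝓝[>] 0) (𝓝 1) := by
        have : Tendsto (fun ε : ℝ => 1 + 9 * ε) (𝓝 0) (𝓝 (1 + 9 * 0)) :=
          (by fun_prop : Continuous fun ε : ℝ => 1 + 9 * ε).tendsto 0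
        rw [mul_zero, add_zero] at this
        exact this.mono_left nhdsWithin_le_nhds
      have := ENNReal.tendsto_ofReal h1
      rwa [ENNReal.ofReal_one] at this
    refine ge_of_tendsto hlim ?_
    filter_upwards [self_mem_nhdsWithin] with ε hε
    exact upper hx' hw hε
  · unfold wbs
    refine le_trans lower_tcca ?_
    refine le_iSup_of_le ug (le_iSup_of_le (fun n => ?_) (le_iSup_of_le ug_weak le_rfl))
    rw [Metric.mem_closedBall, dist_zero_right]
    exact norm_ug_le n

/-- There is a real Banach space `Y` such that the weak Banach-Saks quantity of order one of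
its closed unit ball is equal to `1`; so it is neither `0` nor `2`. -/
theorem result : ∃ (Y : Type) (_ : NormedAddCommGroup Y) (_ : NormedSpace ℝ Y)
    (_ : CompleteSpace Y),
    wbs 1 (Metric.closedBall (0:Y) 1) = 1 ∧
    wbs 1 (Metric.closedBall (0:Y) 1) ≠ 0 ∧ wbs 1 (Metric.closedBall (0:Y) 1) ≠ 2 := by
  refine ⟨X, inferInstance, inferInstance,
    (Submodule.isClosed_topologicalClosure _).completeSpace_coe, ?_⟩
  have h := wbs_one
  refine ⟨h, ?_, ?_⟩
  · rw [h]; exact one_ne_zero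
  · rw [h]
    norm_num

end Pool.Agent.Results.MP_a61181_an.OrderOne
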